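import Mathlib

/-!
The graph of the Hamacher product t-norm `T(x,y) = x y / (x + y - x y)` is not isothermal near a
certain non-umbilic point.
-/

namespace Pool.Agent.Results.MP_9703cd_gt.HamacherNotIsothermal

open Set Filter Topology
open scoped ContDiff

/-- A continuous t-norm: a map `[0,1]² → [0,1]` that is associative, commutative, nondecreasing in
each variable, has unit `1`, and is continuous. (It is given as a function on the plane of which
only the values on the unit square matter here.) -/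
structure IsContinuousTNorm (T : ℝ × ℝ → ℝ) : Prop where
  mem : ∀ x ∈ Icc (0:ℝ) 1, ∀ y ∈ Icc (0:ℝ) 1, T (x, y) ∈ Icc (0:ℝ) 1
  assoc : ∀ x ∈ Icc (0:ℝ) 1, ∀ y ∈ Icc (0:ℝ) 1, ∀ z ∈ Icc (0:ℝ) 1, T (T (x, y), z) = T (x, T (y, z))
  comm : ∀ x ∈ Icc (0:ℝ) 1, ∀ y ∈ Icc (0:ℝ) 1, T (x, y) = T (y, x)
  mono : ∀ x ∈ Icc (0:ℝ) 1, ∀ x' ∈ Icc (0:ℝ) 1, ∀ y ∈ Icc (0:ℝ) 1, ∀ y' ∈ Icc (0:ℝ) 1,
    x ≤ x' → y ≤ y' → T (x, y) ≤ T (x', y')
  one : ∀ x ∈ Icc (0:ℝ) 1, T (x, 1) = x
  cont : ContinuousOn T (Icc (0:ℝ) 1 ×ˢ Icc (0:ℝ) 1)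

/-- First fundamental form of the graph `z = T(x,y)` at the point over `p`, evaluated at the
tangent vectors `(a, dT(a))` and `(b, dT(b))`, with `a, b` in the parameter plane. -/
noncomputable def firstForm (T : ℝ × ℝ → ℝ) (p a b : ℝ × ℝ) : ℝ :=
  a.1 * b.1 + a.2 * b.2 + fderiv ℝ T p a * fderiv ℝ T p b

/-- Second fundamental form of the graph `z = T(x,y)` at the point over `p` (with respect to the
upward unit normal): `D²T(a,b) / sqrt (1 + T_x² + T_y²)`. -/
noncomputable def secondForm (T : ℝ × ℝ → ℝ) (p a b : ℝ × ℝ) : ℝ :=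
  fderiv ℝ (fderiv ℝ T) p a b /
    Real.sqrt (1 + (fderiv ℝ T p (1, 0)) ^ 2 + (fderiv ℝ T p (0, 1)) ^ 2)

/-- `a` is a principal vector of the graph at the point over `p` (it is tangent to a line of
curvature): `II(a, ·) = κ I(a, ·)` for some real `κ`. -/
def IsPrincipal (T : ℝ × ℝ → ℝ) (p a : ℝ × ℝ) : Prop :=
  ∃ κ : ℝ, ∀ b, secondForm T p a b = κ * firstForm T p a b

/-- The point over `p` is umbilic: `II = κ I` for some real `κ`. -/
def IsUmbilic (T : ℝ × ℝ → ℝ) (p : ℝ × ℝ) : Prop :=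
  ∃ κ : ℝ, ∀ a b, secondForm T p a b = κ * firstForm T p a b

/-- The graph of `T` is isothermal near the point over `p`: on some neighbourhood `O` of `p` there
are functions `u, v` of class `C³` (the local parameters) and a positive function `lam` such that
the first fundamental form is `lam (du² + dv²)`, and the coordinate curves `u = const` and
`v = const` are lines of curvature, i.e. every vector killed by `du` or by `dv` is principal.
(The first condition forces `du, dv` to be linearly independent, so `(u, v)` is a local coordinate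
system around each point of `O`.) -/
def IsothermalNear (T : ℝ × ℝ → ℝ) (p : ℝ × ℝ) : Prop :=
  ∃ (O : Set (ℝ × ℝ)) (u v lam : ℝ × ℝ → ℝ), IsOpen O ∧ p ∈ O ∧
    ContDiffOn ℝ 3 u O ∧ ContDiffOn ℝ 3 v O ∧ (∀ q ∈ O, 0 < lam q) ∧
    (∀ q ∈ O, ∀ a b : ℝ × ℝ, firstForm T q a b =
      lam q * (fderiv ℝ u q a * fderiv ℝ u q b + fderiv ℝ v q a * fderiv ℝ v q b)) ∧
    (∀ q ∈ O, ∀ a : ℝ × ℝ, (fderiv ℝ u q a = 0 ∨ fderiv ℝ v q a = 0) → IsPrincipal T q a)

/-- The Hamacher product `T(x,y) = x y / (x + y - x y)` (with the value `0` at the origin, which is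
the convention `0 / 0 = 0`). -/
noncomputable def hamacher (p : ℝ × ℝ) : ℝ := p.1 * p.2 / (p.1 + p.2 - p.1 * p.2)

/-- directional derivative -/
noncomputable def D (e : ℝ × ℝ) (f : ℝ × ℝ → ℝ) : ℝ × ℝ → ℝ := fun q => fderiv ℝ f q e

/-- 2-jet of a `C²` function along the constant frame `e, e'` at `p` -/
def HasJet (p e e' : ℝ × ℝ) (f : ℝ × ℝ → ℝ) (v d1 d2 d11 d12 d22 : ℝ) : Prop :=
  ContDiffAt ℝ 2 f p ∧ f p = v ∧ D e f p = d1 ∧ D e' f p = d2 ∧
    D e (D e f) p = d11 ∧ D e' (D e f) p = d12 ∧ D e' (D e' f) p = d22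

lemma D_contDiffAt {n : WithTop ℕ∞} {f : ℝ × ℝ → ℝ} {p : ℝ × ℝ} (e : ℝ × ℝ)
    (hf : ContDiffAt ℝ (n+1) f p) : ContDiffAt ℝ n (D e f) p :=
  (hf.fderiv_right le_rfl).clm_apply contDiffAt_const

lemma D_congr {f g : ℝ × ℝ → ℝ} {p : ℝ × ℝ} (e : ℝ × ℝ) (h : f =ᶠ[𝓝 p] g) : D e f p = D e g p := by
  unfold D; rw [h.fderiv_eq]

lemma D_congr' {f g : ℝ × ℝ → ℝ} {p : ℝ × ℝ} (e : ℝ × ℝ) (h : f =ᶠ[𝓝 p] g) : D e f =ᶠ[𝓝 p] D e g := by
  filter_upwards [h.eventuallyEq_nhds] with q hq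
  exact D_congr e hq

lemma D_mul {f g : ℝ × ℝ → ℝ} {p : ℝ × ℝ} (e : ℝ × ℝ) (hf : DifferentiableAt ℝ f p)
    (hg : DifferentiableAt ℝ g p) : D e (fun q => f q * g q) p = f p * D e g p + D e f p * g p := by
  unfold D
  rw [fderiv_fun_mul hf hg]
  simp
  ring

lemma D_add {f g : ℝ × ℝ → ℝ} {p : ℝ × ℝ} (e : ℝ × ℝ) (hf : DifferentiableAt ℝ f p)
    (hg : DifferentiableAt ℝ g p) : D e (fun q => f q + g q) p = D e f p + D e g p := by
  unfold D
  rw [fderiv_fun_add hf hg]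
  simp

lemma HasJet.add {p e e' : ℝ × ℝ} {f g : ℝ × ℝ → ℝ} {v d1 d2 d11 d12 d22 w c1 c2 c11 c12 c22 : ℝ}
    (hf : HasJet p e e' f v d1 d2 d11 d12 d22) (hg : HasJet p e e' g w c1 c2 c11 c12 c22) :
    HasJet p e e' (fun q => f q + g q) (v + w) (d1 + c1) (d2 + c2) (d11 + c11) (d12 + c12) (d22 + c22) := by
  obtain ⟨hf0, f1, f2, f3, f4, f5, f6⟩ := hf
  obtain ⟨hg0, g1, g2, g3, g4, g5, g6⟩ := hg
  have fd : ∀ᶠ q in 𝓝 p, DifferentiableAt ℝ f q := by
    filter_upwards [hf0.eventually (by simp)] with q hq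
    exact hq.differentiableAt (by simp)
  have gd : ∀ᶠ q in 𝓝 p, DifferentiableAt ℝ g q := by
    filter_upwards [hg0.eventually (by simp)] with q hq
    exact hq.differentiableAt (by simp)
  have fD : ∀ e, DifferentiableAt ℝ (D e f) p := fun e =>
    (D_contDiffAt (n := 1) e (by exact_mod_cast hf0)).differentiableAt (by simp)
  have gD : ∀ e, DifferentiableAt ℝ (D e g) p := fun e =>
    (D_contDiffAt (n := 1) e (by exact_mod_cast hg0)).differentiableAt (by simp)
  have key : ∀ e, D e (fun q => f q + g q) =ᶠ[𝓝 p] fun q => D e f q + D e g q := by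
    intro e
    filter_upwards [fd, gd] with q h1 h2
    exact D_add e h1 h2
  have k1 : ∀ e, D e (fun q => f q + g q) p = D e f p + D e g p := fun e => (key e).self_of_nhds
  refine ⟨hf0.add hg0, ?_, ?_, ?_, ?_, ?_, ?_⟩
  · rw [← f1, ← g1]
  · rw [k1, f2, g2]
  · rw [k1, f3, g3]
  · rw [D_congr e (key e), D_add e (fD e) (gD e), f4, g4]
  · rw [D_congr e' (key e), D_add e' (fD e) (gD e), f5, g5]
  · rw [D_congr e' (key e'), D_add e' (fD e') (gD e'), f6, g6]

lemma HasJet.mul {p e e' : ℝ × ℝ} {f g : ℝ × ℝ → ℝ} {v d1 d2 d11 d12 d22 w c1 c2 c11 c12 c22 : ℝ}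
    (hf : HasJet p e e' f v d1 d2 d11 d12 d22) (hg : HasJet p e e' g w c1 c2 c11 c12 c22) :
    HasJet p e e' (fun q => f q * g q) (v * w) (v * c1 + d1 * w) (v * c2 + d2 * w)
      (v * c11 + 2 * (d1 * c1) + d11 * w) (v * c12 + d1 * c2 + d2 * c1 + d12 * w)
      (v * c22 + 2 * (d2 * c2) + d22 * w) := by
  obtain ⟨hf0, f1, f2, f3, f4, f5, f6⟩ := hf
  obtain ⟨hg0, g1, g2, g3, g4, g5, g6⟩ := hg
  have fd : ∀ᶠ q in 𝓝 p, DifferentiableAt ℝ f q := by
    filter_upwards [hf0.eventually (by simp)] with q hq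
    exact hq.differentiableAt (by simp)
  have gd : ∀ᶠ q in 𝓝 p, DifferentiableAt ℝ g q := by
    filter_upwards [hg0.eventually (by simp)] with q hq
    exact hq.differentiableAt (by simp)
  have fD : ∀ e, DifferentiableAt ℝ (D e f) p := fun e =>
    (D_contDiffAt (n := 1) e (by exact_mod_cast hf0)).differentiableAt (by simp)
  have gD : ∀ e, DifferentiableAt ℝ (D e g) p := fun e =>
    (D_contDiffAt (n := 1) e (by exact_mod_cast hg0)).differentiableAt (by simp)
  have key : ∀ e, D e (fun q => f q * g q) =ᶠ[𝓝 p] fun q => f q * D e g q + D e f q * g q := by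
    intro e
    filter_upwards [fd, gd] with q h1 h2
    exact D_mul e h1 h2
  have fp := fd.self_of_nhds
  have gp := gd.self_of_nhds
  have second : ∀ e₁ e₂ : ℝ × ℝ, D e₂ (D e₁ (fun q => f q * g q)) p =
      (f p * D e₂ (D e₁ g) p + D e₂ f p * D e₁ g p) + (D e₁ f p * D e₂ g p + D e₂ (D e₁ f) p * g p) := by
    intro e₁ e₂
    have h1 : DifferentiableAt ℝ (fun q => f q * D e₁ g q) p := fp.mul (gD e₁)
    have h2 : DifferentiableAt ℝ (fun q => D e₁ f q * g q) p := (fD e₁).mul gp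
    rw [D_congr e₂ (key e₁), D_add e₂ h1 h2, D_mul e₂ fp (gD e₁), D_mul e₂ (fD e₁) gp]
  have k1 : ∀ e, D e (fun q => f q * g q) p = f p * D e g p + D e f p * g p :=
    fun e => (key e).self_of_nhds
  refine ⟨hf0.mul hg0, ?_, ?_, ?_, ?_, ?_, ?_⟩
  · rw [← f1, ← g1]
  · rw [k1, f2, g2, f1, g1]
  · rw [k1, f3, g3, f1, g1]
  · rw [second e e, f1, g1, f2, g2, f4, g4]; ring
  · rw [second e e', f1, g1, f2, g2, f3, g3, f5, g5]; ring
  · rw [second e' e', f1, g1, f3, g3, f6, g6]; ring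

lemma HasJet.const (p e e' : ℝ × ℝ) (c : ℝ) : HasJet p e e' (fun _ => c) c 0 0 0 0 0 := by
  have h : ∀ e, D e (fun _ : ℝ × ℝ => c) = fun _ => 0 := by
    intro e; funext q; simp [D]
  have h0 : ∀ e, D e (fun _ : ℝ × ℝ => (0:ℝ)) = fun _ => 0 := by
    intro e; funext q; simp [D]
  refine ⟨contDiffAt_const, rfl, ?_, ?_, ?_, ?_, ?_⟩ <;> simp [h, h0]

lemma HasJet.fst (p e e' : ℝ × ℝ) : HasJet p e e' (fun q => q.1) p.1 e.1 e'.1 0 0 0 := by
  have h : ∀ e : ℝ × ℝ, D e (fun q : ℝ × ℝ => q.1) = fun _ => e.1 := by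
    intro e; funext q; simp [D, fderiv_fst]
  have h0 : ∀ (e : ℝ × ℝ) (c : ℝ), D e (fun _ : ℝ × ℝ => c) = fun _ => 0 := by
    intro e c; funext q; simp [D]
  refine ⟨contDiffAt_fst, rfl, ?_, ?_, ?_, ?_, ?_⟩ <;> simp [h, h0]

lemma HasJet.snd (p e e' : ℝ × ℝ) : HasJet p e e' (fun q => q.2) p.2 e.2 e'.2 0 0 0 := by
  have h : ∀ e : ℝ × ℝ, D e (fun q : ℝ × ℝ => q.2) = fun _ => e.2 := by
    intro e; funext q; simp [D, fderiv_snd]
  have h0 : ∀ (e : ℝ × ℝ) (c : ℝ), D e (fun _ : ℝ × ℝ => c) = fun _ => 0 := by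
    intro e c; funext q; simp [D]
  refine ⟨contDiffAt_snd, rfl, ?_, ?_, ?_, ?_, ?_⟩ <;> simp [h, h0]

lemma HasJet.congr {p e e' : ℝ × ℝ} {f g : ℝ × ℝ → ℝ} {v d1 d2 d11 d12 d22 : ℝ}
    (hf : HasJet p e e' f v d1 d2 d11 d12 d22) (h : f =ᶠ[𝓝 p] g) :
    HasJet p e e' g v d1 d2 d11 d12 d22 := by
  obtain ⟨hf0, f1, f2, f3, f4, f5, f6⟩ := hf
  refine ⟨hf0.congr_of_eventuallyEq h.symm, ?_, ?_, ?_, ?_, ?_, ?_⟩
  · rw [← h.self_of_nhds, f1]
  · rw [← D_congr e h, f2]
  · rw [← D_congr e' h, f3]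
  · rw [← D_congr e (D_congr' e h), f4]
  · rw [← D_congr e' (D_congr' e h), f5]
  · rw [← D_congr e' (D_congr' e' h), f6]

/-- change of the recorded numbers -/
lemma HasJet.num {p e e' : ℝ × ℝ} {f : ℝ × ℝ → ℝ} {v d1 d2 d11 d12 d22 w c1 c2 c11 c12 c22 : ℝ}
    (hf : HasJet p e e' f v d1 d2 d11 d12 d22)
    (h0 : v = w) (h1 : d1 = c1) (h2 : d2 = c2) (h3 : d11 = c11) (h4 : d12 = c12) (h5 : d22 = c22) :
    HasJet p e e' f w c1 c2 c11 c12 c22 := by
  subst h0 h1 h2 h3 h4 h5; exact hf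

/-- a function vanishing near `p` has vanishing jet -/
lemma HasJet.eq_zero {p e e' : ℝ × ℝ} {f : ℝ × ℝ → ℝ} {v d1 d2 d11 d12 d22 : ℝ}
    (hf : HasJet p e e' f v d1 d2 d11 d12 d22) (h : f =ᶠ[𝓝 p] fun _ => 0) :
    v = 0 ∧ d1 = 0 ∧ d2 = 0 ∧ d11 = 0 ∧ d12 = 0 ∧ d22 = 0 := by
  obtain ⟨-, f1, f2, f3, f4, f5, f6⟩ := hf
  obtain ⟨-, g1, g2, g3, g4, g5, g6⟩ := (HasJet.const p e e' 0).congr h.symm
  refine ⟨?_, ?_, ?_, ?_, ?_, ?_⟩
  · rw [← f1, g1]
  · rw [← f2, g2]
  · rw [← f3, g3]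
  · rw [← f4, g4]
  · rw [← f5, g5]
  · rw [← f6, g6]

lemma D_comm {u : ℝ × ℝ → ℝ} {p : ℝ × ℝ} (hu : ContDiffAt ℝ 2 u p) (e e' : ℝ × ℝ) :
    D e (D e' u) p = D e' (D e u) p := by
  have hs : IsSymmSndFDerivAt ℝ u p := hu.isSymmSndFDerivAt (by simp)
  have hd : DifferentiableAt ℝ (fderiv ℝ u) p :=
    (hu.fderiv_right (m := 1) (by norm_num)).differentiableAt (by simp)
  have h : ∀ e e' : ℝ × ℝ, D e (D e' u) p = fderiv ℝ (fderiv ℝ u) p e e' := by
    intro e e'
    unfold D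
    have h1 : HasFDerivAt (fun q => fderiv ℝ u q e') ((ContinuousLinearMap.apply ℝ ℝ e').comp (fderiv ℝ (fderiv ℝ u) p)) p :=
      (ContinuousLinearMap.apply ℝ ℝ e').hasFDerivAt.comp p hd.hasFDerivAt
    rw [h1.fderiv]
    rfl
  rw [h, h]
  exact hs e e'

/-- the jets of the two first derivatives of a `C³` function -/
lemma jets_of_C3 {u : ℝ × ℝ → ℝ} {p : ℝ × ℝ} (hu : ContDiffAt ℝ 3 u p) (e e' : ℝ × ℝ) :
    ∃ a0 a1 a2 a11 a12 a22 b0 b2 b22 : ℝ,
      HasJet p e e' (D e u) a0 a1 a2 a11 a12 a22 ∧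
      HasJet p e e' (D e' u) b0 a2 b2 a12 a22 b22 := by
  have hev : ∀ᶠ q in 𝓝 p, ContDiffAt ℝ 2 u q := by
    filter_upwards [hu.eventually (by simp)] with q hq
    exact hq.of_le (by norm_num)
  have hc : ∀ e e' : ℝ × ℝ, D e (D e' u) =ᶠ[𝓝 p] D e' (D e u) := by
    intro e e'
    filter_upwards [hev] with q hq
    exact D_comm hq e e'
  have h2 : ∀ e, ContDiffAt ℝ 2 (D e u) p := fun e =>
    D_contDiffAt e (hu.of_le (by norm_num))
  refine ⟨D e u p, D e (D e u) p, D e' (D e u) p, D e (D e (D e u)) p, D e' (D e (D e u)) p,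
    D e' (D e' (D e u)) p, D e' u p, D e' (D e' u) p, D e' (D e' (D e' u)) p,
    ⟨h2 e, rfl, rfl, rfl, rfl, rfl, rfl⟩, ⟨h2 e', rfl, ?_, rfl, ?_, ?_, rfl⟩⟩
  · exact (hc e e').self_of_nhds
  · rw [D_congr e (hc e e')]
    exact D_comm (h2 e) e e'
  · rw [D_congr e' (hc e e')]


/-! ### The Hamacher product is a continuous t-norm -/

lemma den_nonneg {x y : ℝ} (hx : x ∈ Icc (0:ℝ) 1) (hy : y ∈ Icc (0:ℝ) 1) : 0 ≤ x + y - x * y := by
  nlinarith [hx.1, hx.2, hy.1, hy.2, mul_nonneg hy.1 (sub_nonneg.mpr hx.2)]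

lemma den_pos_left {x y : ℝ} (hx : x ∈ Icc (0:ℝ) 1) (hy : y ∈ Icc (0:ℝ) 1) (h : 0 < x) :
    0 < x + y - x * y := by
  nlinarith [mul_nonneg hy.1 (sub_nonneg.mpr hx.2)]

lemma den_pos_right {x y : ℝ} (hx : x ∈ Icc (0:ℝ) 1) (hy : y ∈ Icc (0:ℝ) 1) (h : 0 < y) :
    0 < x + y - x * y := by
  nlinarith [mul_nonneg hx.1 (sub_nonneg.mpr hy.2)]

lemma ham_zero_left (y : ℝ) : hamacher (0, y) = 0 := by simp [hamacher]

lemma ham_zero_right (x : ℝ) : hamacher (x, 0) = 0 := by simp [hamacher]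

lemma ham_mem {x y : ℝ} (hx : x ∈ Icc (0:ℝ) 1) (hy : y ∈ Icc (0:ℝ) 1) :
    hamacher (x, y) ∈ Icc (0:ℝ) 1 := by
  unfold hamacher
  constructor
  · exact div_nonneg (mul_nonneg hx.1 hy.1) (den_nonneg hx hy)
  · apply div_le_one_of_le₀ _ (den_nonneg hx hy)
    show x * y ≤ x + y - x * y
    nlinarith [mul_nonneg hx.1 (sub_nonneg.mpr hy.2), mul_nonneg hy.1 (sub_nonneg.mpr hx.2)]

lemma ham_le_left {x y : ℝ} (hx : x ∈ Icc (0:ℝ) 1) (hy : y ∈ Icc (0:ℝ) 1) :
    hamacher (x, y) ≤ x := by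
  unfold hamacher
  apply div_le_of_le_mul₀ (den_nonneg hx hy) hx.1
  show x * y ≤ x * (x + y - x * y)
  nlinarith [mul_nonneg (mul_nonneg hx.1 hx.1) (sub_nonneg.mpr hy.2)]

lemma ham_comm (x y : ℝ) : hamacher (x, y) = hamacher (y, x) := by
  unfold hamacher
  show x * y / (x + y - x * y) = y * x / (y + x - y * x)
  congr 1 <;> ring

lemma ham_mono_left {x x' y : ℝ} (hx : x ∈ Icc (0:ℝ) 1) (hx' : x' ∈ Icc (0:ℝ) 1)
    (hy : y ∈ Icc (0:ℝ) 1) (h : x ≤ x') : hamacher (x, y) ≤ hamacher (x', y) := by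
  rcases eq_or_lt_of_le hy.1 with h0 | h0
  · rw [← h0, ham_zero_right, ham_zero_right]
  · unfold hamacher
    rw [div_le_div_iff₀ (den_pos_right hx hy h0) (den_pos_right hx' hy h0)]
    show x * y * (x' + y - x' * y) ≤ x' * y * (x + y - x * y)
    nlinarith [mul_le_mul_of_nonneg_right h (mul_nonneg h0.le h0.le)]

lemma ham_mono {x x' y y' : ℝ} (hx : x ∈ Icc (0:ℝ) 1) (hx' : x' ∈ Icc (0:ℝ) 1)
    (hy : y ∈ Icc (0:ℝ) 1) (hy' : y' ∈ Icc (0:ℝ) 1) (h : x ≤ x') (h' : y ≤ y') :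
    hamacher (x, y) ≤ hamacher (x', y') := by
  refine (ham_mono_left hx hx' hy h).trans ?_
  rw [ham_comm x' y, ham_comm x' y']
  exact ham_mono_left hy hy' hx' h'

lemma ham_assoc {x y z : ℝ} (hx : x ∈ Icc (0:ℝ) 1) (hy : y ∈ Icc (0:ℝ) 1) (hz : z ∈ Icc (0:ℝ) 1) :
    hamacher (hamacher (x, y), z) = hamacher (x, hamacher (y, z)) := by
  rcases eq_or_lt_of_le hx.1 with h0 | h0
  · rw [← h0, ham_zero_left, ham_zero_left, ham_zero_left]
  rcases eq_or_lt_of_le hy.1 with h1 | h1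
  · rw [← h1, ham_zero_right, ham_zero_left, ham_zero_right]
  rcases eq_or_lt_of_le hz.1 with h2 | h2
  · rw [← h2, ham_zero_right, ham_zero_right, ham_zero_right]
  have d1 := den_pos_left hx hy h0
  have d2 := den_pos_left hy hz h1
  have m1 := ham_mem hx hy
  have m2 := ham_mem hy hz
  have d3 := den_pos_right m1 hz h2
  have d4 := den_pos_left hx m2 h0
  have key : ∀ a b : ℝ, hamacher (a, b) = a * b / (a + b - a * b) := fun a b => rfl
  have e1 : hamacher (x, y) * (x + y - x * y) = x * y := by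
    rw [key]; field_simp
  have e2 : hamacher (y, z) * (y + z - y * z) = y * z := by
    rw [key]; field_simp
  rw [key (hamacher (x, y)) z, key x (hamacher (y, z)), div_eq_div_iff d3.ne' d4.ne']
  set P := hamacher (x, y)
  set Q := hamacher (y, z)
  have n1 : P = x * y / (x + y - x * y) := rfl
  have n2 : Q = y * z / (y + z - y * z) := rfl
  rw [n1, n2]
  field_simp
  ring

lemma ham_cont : ContinuousOn hamacher (Icc (0:ℝ) 1 ×ˢ Icc (0:ℝ) 1) := by
  rintro ⟨x, y⟩ ⟨hx, hy⟩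
  simp only at hx hy
  by_cases h : x + y - x * y = 0
  · have hx0 : x = 0 := by
      rcases eq_or_lt_of_le hx.1 with h0 | h0
      · exact h0.symm
      · exact absurd h (den_pos_left hx hy h0).ne'
    have hy0 : y = 0 := by
      rcases eq_or_lt_of_le hy.1 with h0 | h0
      · exact h0.symm
      · exact absurd h (den_pos_right hx hy h0).ne'
    subst hx0 hy0
    unfold ContinuousWithinAt
    rw [ham_zero_left]
    have h1 : Tendsto (fun q : ℝ × ℝ => q.1) (𝓝[Icc (0:ℝ) 1 ×ˢ Icc (0:ℝ) 1] (0, 0)) (𝓝 0) := by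
      have := (continuous_fst.tendsto ((0:ℝ), (0:ℝ))).mono_left
        (nhdsWithin_le_nhds (s := Icc (0:ℝ) 1 ×ˢ Icc (0:ℝ) 1))
      simpa using this
    refine squeeze_zero' ?_ ?_ h1
    · filter_upwards [self_mem_nhdsWithin] with q hq
      exact (ham_mem hq.1 hq.2).1
    · filter_upwards [self_mem_nhdsWithin] with q hq
      exact ham_le_left hq.1 hq.2
  · apply ContinuousAt.continuousWithinAt
    unfold hamacher
    apply ContinuousAt.div
    · fun_prop
    · fun_prop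
    · exact h

lemma ham_isContinuousTNorm : IsContinuousTNorm hamacher where
  mem := fun _ hx _ hy => ham_mem hx hy
  assoc := fun _ hx _ hy _ hz => ham_assoc hx hy hz
  comm := fun x _ y _ => ham_comm x y
  mono := fun _ hx _ hx' _ hy _ hy' h h' => ham_mono hx hx' hy hy' h h'
  one := fun x _ => by simp [hamacher]
  cont := ham_cont

/-- the open unit square -/
def Sq : Set (ℝ × ℝ) := Ioo (0:ℝ) 1 ×ˢ Ioo (0:ℝ) 1

/-- the denominator -/
def Dn (q : ℝ × ℝ) : ℝ := q.1 + q.2 - q.1 * q.2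

lemma Sq_open : IsOpen Sq := isOpen_Ioo.prod isOpen_Ioo

lemma Dn_pos {q : ℝ × ℝ} (hq : q ∈ Sq) : 0 < Dn q :=
  den_pos_left ⟨hq.1.1.le, hq.1.2.le⟩ ⟨hq.2.1.le, hq.2.2.le⟩ hq.1.1

lemma ham_contDiffOn : ContDiffOn ℝ ∞ hamacher Sq := by
  unfold hamacher
  apply ContDiffOn.div
  · fun_prop
  · fun_prop
  · intro q hq
    exact (Dn_pos hq).ne'

/-! ### The fundamental forms of the graph -/

lemma D_fst (e q : ℝ × ℝ) : D e (fun q : ℝ × ℝ => q.1) q = e.1 := by simp [D, fderiv_fst]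

lemma D_snd (e q : ℝ × ℝ) : D e (fun q : ℝ × ℝ => q.2) q = e.2 := by simp [D, fderiv_snd]

lemma Dn_diff (q : ℝ × ℝ) : DifferentiableAt ℝ Dn q := by
  unfold Dn; fun_prop

lemma D_Dn (e q : ℝ × ℝ) : D e Dn q = e.1 * (1 - q.2) + e.2 * (1 - q.1) := by
  have h : HasFDerivAt Dn ((ContinuousLinearMap.fst ℝ ℝ ℝ + ContinuousLinearMap.snd ℝ ℝ ℝ) -
      (q.1 • ContinuousLinearMap.snd ℝ ℝ ℝ + q.2 • ContinuousLinearMap.fst ℝ ℝ ℝ)) q :=
    (hasFDerivAt_fst.add hasFDerivAt_snd).sub (hasFDerivAt_fst.mul hasFDerivAt_snd)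
  unfold D
  rw [h.fderiv]
  simp
  ring

/-- numerator of `dT(e)` -/
def ell (e q : ℝ × ℝ) : ℝ := q.2 * q.2 * e.1 + q.1 * q.1 * e.2

lemma ell_diff (e q : ℝ × ℝ) : DifferentiableAt ℝ (ell e) q := by
  unfold ell; fun_prop

lemma ham_diff {q : ℝ × ℝ} (hq : q ∈ Sq) : DifferentiableAt ℝ hamacher q :=
  ((ham_contDiffOn.contDiffAt (Sq_open.mem_nhds hq)).differentiableAt (by simp))

lemma D_ham {q : ℝ × ℝ} (hq : q ∈ Sq) (e : ℝ × ℝ) : D e hamacher q = ell e q / Dn q ^ 2 := by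
  have hD := (Dn_pos hq).ne'
  have h1 : (fun q : ℝ × ℝ => hamacher q * Dn q) =ᶠ[𝓝 q] fun q => q.1 * q.2 := by
    filter_upwards [Sq_open.mem_nhds hq] with r hr
    have := (Dn_pos hr).ne'
    unfold Dn at this
    unfold hamacher Dn
    field_simp
  have h2 := D_congr e h1
  rw [D_mul e (ham_diff hq) (Dn_diff q), D_mul e differentiableAt_fst differentiableAt_snd,
    D_fst, D_snd, D_Dn] at h2
  have h3 : hamacher q = q.1 * q.2 / Dn q := rfl
  rw [h3] at h2
  rw [eq_div_iff (pow_ne_zero 2 hD)]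
  have h4 : D e hamacher q * Dn q = q.1 * e.2 + e.1 * q.2 - q.1 * q.2 / Dn q * (e.1 * (1 - q.2) + e.2 * (1 - q.1)) := by
    linarith
  have h5 : D e hamacher q * Dn q ^ 2 = (D e hamacher q * Dn q) * Dn q := by ring
  rw [h5, h4]
  field_simp
  unfold ell Dn
  ring

/-- numerator of the Hessian -/
def Hf (e e' q : ℝ × ℝ) : ℝ :=
  q.2 * q.2 * (q.2 - 1) * (e.1 * e'.1) + q.1 * q.2 * (e.1 * e'.2 + e.2 * e'.1) +
    q.1 * q.1 * (q.1 - 1) * (e.2 * e'.2)

/-- numerator of the metric -/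
def Gf (e e' q : ℝ × ℝ) : ℝ :=
  Dn q * Dn q * (Dn q * Dn q) * (e.1 * e'.1 + e.2 * e'.2) + ell e q * ell e' q

lemma D_mulself {f : ℝ × ℝ → ℝ} {p : ℝ × ℝ} (e : ℝ × ℝ) (hf : DifferentiableAt ℝ f p) :
    D e (fun q => f q * f q) p = 2 * (f p * D e f p) := by
  rw [D_mul e hf hf]; ring

lemma D_ell (e e' q : ℝ × ℝ) : D e (ell e') q = 2 * (q.2 * e.2) * e'.1 + 2 * (q.1 * e.1) * e'.2 := by
  unfold ell
  have d1 : DifferentiableAt ℝ (fun q : ℝ × ℝ => q.2 * q.2) q := by fun_prop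
  have d2 : DifferentiableAt ℝ (fun q : ℝ × ℝ => q.1 * q.1) q := by fun_prop
  have c0 : ∀ c : ℝ, DifferentiableAt ℝ (fun _ : ℝ × ℝ => c) q := fun c => differentiableAt_const c
  have c1 : ∀ c : ℝ, D e (fun _ : ℝ × ℝ => c) q = 0 := by intro c; simp [D]
  have f1 : DifferentiableAt ℝ (fun q : ℝ × ℝ => q.2 * q.2 * e'.1) q := by fun_prop
  have f2 : DifferentiableAt ℝ (fun q : ℝ × ℝ => q.1 * q.1 * e'.2) q := by fun_prop
  rw [D_add e f1 f2, D_mul e d1 (c0 _), D_mul e d2 (c0 _), c1, c1,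
    D_mulself e differentiableAt_fst, D_mulself e differentiableAt_snd, D_fst, D_snd]
  ring

lemma hess_ham {q : ℝ × ℝ} (hq : q ∈ Sq) (a b : ℝ × ℝ) :
    fderiv ℝ (fderiv ℝ hamacher) q a b = 2 * Hf a b q / Dn q ^ 3 := by
  have hD := (Dn_pos hq).ne'
  have hc : ContDiffAt ℝ 2 hamacher q := by
    exact_mod_cast contDiffAt_infty.mp (ham_contDiffOn.contDiffAt (Sq_open.mem_nhds hq)) 2
  have hd : DifferentiableAt ℝ (fderiv ℝ hamacher) q :=
    (hc.fderiv_right (m := 1) (by norm_num)).differentiableAt (by simp)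
  have h0 : fderiv ℝ (fderiv ℝ hamacher) q a b = D a (D b hamacher) q := by
    unfold D
    have h1 : HasFDerivAt (fun q => fderiv ℝ hamacher q b)
        ((ContinuousLinearMap.apply ℝ ℝ b).comp (fderiv ℝ (fderiv ℝ hamacher) q)) q :=
      (ContinuousLinearMap.apply ℝ ℝ b).hasFDerivAt.comp q hd.hasFDerivAt
    rw [h1.fderiv]
    rfl
  have h1 : (fun r : ℝ × ℝ => D b hamacher r * (Dn r * Dn r)) =ᶠ[𝓝 q] ell b := by
    filter_upwards [Sq_open.mem_nhds hq] with r hr
    rw [D_ham hr]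
    have := (Dn_pos hr).ne'
    field_simp
  have h2 := D_congr a h1
  have hDb : DifferentiableAt ℝ (D b hamacher) q := (D_contDiffAt (n := 1) b (by exact_mod_cast hc)).differentiableAt (by simp)
  have hDD : DifferentiableAt ℝ (fun r => Dn r * Dn r) q := (Dn_diff q).mul (Dn_diff q)
  rw [D_mul a hDb hDD, D_mulself a (Dn_diff q), D_ell, D_Dn, D_ham hq] at h2
  rw [h0, eq_div_iff (pow_ne_zero 3 hD)]
  have h3 : D a (D b hamacher) q * (Dn q * Dn q) = 2 * (q.2 * a.2) * b.1 + 2 * (q.1 * a.1) * b.2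
      - ell b q / Dn q ^ 2 * (2 * (Dn q * (a.1 * (1 - q.2) + a.2 * (1 - q.1)))) := by linarith
  have h5 : D a (D b hamacher) q * Dn q ^ 3 = (D a (D b hamacher) q * (Dn q * Dn q)) * Dn q := by ring
  rw [h5, h3]
  field_simp
  unfold ell Dn Hf
  ring

lemma first_ham {q : ℝ × ℝ} (hq : q ∈ Sq) (a b : ℝ × ℝ) :
    firstForm hamacher q a b = Gf a b q / Dn q ^ 4 := by
  have hD := (Dn_pos hq).ne'
  unfold firstForm
  have h1 : ∀ e, fderiv ℝ hamacher q e = ell e q / Dn q ^ 2 := fun e => D_ham hq e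
  rw [h1, h1]
  unfold Gf
  field_simp

lemma second_ham {q : ℝ × ℝ} (hq : q ∈ Sq) : ∃ c : ℝ, 0 < c ∧ ∀ a b : ℝ × ℝ,
    secondForm hamacher q a b = c * Hf a b q := by
  have hD := Dn_pos hq
  have hs : 0 < Real.sqrt (1 + (fderiv ℝ hamacher q (1, 0)) ^ 2 + (fderiv ℝ hamacher q (0, 1)) ^ 2) := by
    apply Real.sqrt_pos.mpr; positivity
  refine ⟨2 / Dn q ^ 3 / Real.sqrt (1 + (fderiv ℝ hamacher q (1, 0)) ^ 2 + (fderiv ℝ hamacher q (0, 1)) ^ 2),
    by positivity, fun a b => ?_⟩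
  unfold secondForm
  rw [hess_ham hq]
  ring

/-! ### Algebraic consequences of isothermality -/

lemma Gf_add (a b c q : ℝ × ℝ) (s t : ℝ) : Gf (s * a.1 + t * b.1, s * a.2 + t * b.2) c q
    = s * Gf a c q + t * Gf b c q := by
  unfold Gf ell; simp only; ring

lemma relations {O : Set (ℝ × ℝ)} {u v lam : ℝ × ℝ → ℝ}
    (h1 : ∀ q ∈ O, ∀ a b : ℝ × ℝ, firstForm hamacher q a b =
      lam q * (fderiv ℝ u q a * fderiv ℝ u q b + fderiv ℝ v q a * fderiv ℝ v q b))
    (h2 : ∀ q ∈ O, ∀ a : ℝ × ℝ, (fderiv ℝ u q a = 0 ∨ fderiv ℝ v q a = 0) → IsPrincipal hamacher q a)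
    {q : ℝ × ℝ} (hq : q ∈ O) (hs : q ∈ Sq) (e e' : ℝ × ℝ) :
    (Gf e' e' q * (D e u q * D e v q) + (-1) * Gf e e' q * (D e u q * D e' v q + D e' u q * D e v q)
      + Gf e e q * (D e' u q * D e' v q) = 0) ∧
    (Hf e' e' q * (D e u q * D e v q) + (-1) * Hf e e' q * (D e u q * D e' v q + D e' u q * D e v q)
      + Hf e e q * (D e' u q * D e' v q) = 0) ∧
    (Gf e' e' q * (D e u q * D e u q + (-1) * (D e v q * D e v q)) +
      (-2) * Gf e e' q * (D e u q * D e' u q + (-1) * (D e v q * D e' v q))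
      + Gf e e q * (D e' u q * D e' u q + (-1) * (D e' v q * D e' v q)) = 0) ∧
    (Gf e e q * Gf e' e' q - Gf e e' q * Gf e e' q =
      (lam q * Dn q ^ 4) ^ 2 * (D e u q * D e' v q - D e' u q * D e v q) ^ 2) := by
  have hD := Dn_pos hs
  set L := lam q * Dn q ^ 4 with hL
  have hG : ∀ a b, Gf a b q = L * (D a u q * D b u q + D a v q * D b v q) := by
    intro a b
    have := h1 q hq a b
    rw [first_ham hs, div_eq_iff (pow_ne_zero 4 hD.ne')] at this
    rw [this, hL]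
    unfold D
    ring
  refine ⟨by rw [hG, hG, hG]; ring, ?_, by rw [hG, hG, hG]; ring, by rw [hG, hG, hG]; ring⟩
  -- the two coordinate directions
  set n : ℝ × ℝ := D e' u q • e - D e u q • e' with hn
  set m : ℝ × ℝ := D e' v q • e - D e v q • e' with hm
  have hun : fderiv ℝ u q n = 0 := by
    rw [hn, map_sub, map_smul, map_smul]
    simp only [D, smul_eq_mul]
    ring
  have hvm : fderiv ℝ v q m = 0 := by
    rw [hm, map_sub, map_smul, map_smul]
    simp only [D, smul_eq_mul]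
    ring
  obtain ⟨κ, hκ⟩ := h2 q hq n (Or.inl hun)
  have h3 : firstForm hamacher q n m = 0 := by
    rw [h1 q hq n m, hun, hvm]; ring
  have h4 := hκ m
  rw [h3, mul_zero] at h4
  obtain ⟨c, hc, hcc⟩ := second_ham hs
  rw [hcc] at h4
  have h5 : Hf n m q = 0 := by
    rcases mul_eq_zero.mp h4 with h | h
    · exact absurd h hc.ne'
    · exact h
  have h6 : Hf n m q = Hf e e q * (D e' u q * D e' v q) + (-1) * Hf e e' q * (D e u q * D e' v q + D e' u q * D e v q)
      + Hf e' e' q * (D e u q * D e v q) := by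
    rw [hn, hm]
    unfold Hf
    simp only [Prod.fst_sub, Prod.snd_sub, Prod.smul_fst, Prod.smul_snd, smul_eq_mul]
    ring
  rw [h6] at h5
  linarith

/-! ### The 2-jets of the coefficients at the point `P` -/

/-- the point -/
noncomputable def P : ℝ × ℝ := (45/56, 45/77)

/-- first frame vector -/
noncomputable def E1 : ℝ × ℝ := (19/56, 24/77)

/-- second frame vector -/
noncomputable def E2 : ℝ × ℝ := (-55/56, 62/77)

lemma P_mem : P ∈ Sq := by
  unfold P Sq
  constructor <;> constructor <;> norm_num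

lemma jx : HasJet P E1 E2 (fun q => q.1) (45/56) (19/56) (-55/56) 0 0 0 := by
  exact (HasJet.fst P E1 E2).num (by norm_num [P]) (by norm_num [E1]) (by norm_num [E2]) rfl rfl rfl

lemma jy : HasJet P E1 E2 (fun q => q.2) (45/77) (24/77) (62/77) 0 0 0 := by
  exact (HasJet.snd P E1 E2).num (by norm_num [P]) (by norm_num [E1]) (by norm_num [E2]) rfl rfl rfl

lemma jD : HasJet P E1 E2 Dn (45/49) (109/539) (-1/4) (-114/539) (71/2156) (155/98) := by
  have h := (jx.add jy).add ((HasJet.const P E1 E2 (-1)).mul (jx.mul jy))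
  have h2 := h.num (w := (45/49)) (c1 := (109/539)) (c2 := (-1/4)) (c11 := (-114/539)) (c12 := (71/2156)) (c22 := (155/98))
    (by norm_num) (by norm_num) (by norm_num) (by norm_num) (by norm_num) (by norm_num)
  exact h2.congr (Eventually.of_forall fun q => by simp only [Dn]; ring)

lemma jD2 : HasJet P E1 E2 (fun q => Dn q * Dn q) (2025/2401) (9810/26411) (-45/98) (-89098/290521) (-1073/26411) (58201/19208) :=
  (jD.mul jD).num (by norm_num) (by norm_num) (by norm_num) (by norm_num) (by norm_num) (by norm_num)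

lemma jD4 : HasJet P E1 E2 (fun q => Dn q * Dn q * (Dn q * Dn q)) (4100625/5764801) (39730500/63412811) (-91125/117649) (-168374700/697540921) (-25976700/63412811) (127581075/23059204) :=
  (jD2.mul jD2).num (by norm_num) (by norm_num) (by norm_num) (by norm_num) (by norm_num) (by norm_num)

lemma jl1 : HasJet P E1 E2 (ell E1) (26325/83006) (48735/166012) (-585/3388) (22857/166012) (-6213/166012) (172861/166012) :=
  (((jy.mul jy).mul (HasJet.const P E1 E2 E1.1)).add ((jx.mul jx).mul (HasJet.const P E1 E2 E1.2))).num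
    (by norm_num [E1]) (by norm_num [E1]) (by norm_num [E1]) (by norm_num [E1]) (by norm_num [E1]) (by norm_num [E1])

lemma jl2 : HasJet P E1 E2 (ell E2) (2025/10976) (4905/60368) (-132525/60368) (-47/8624) (-62155/60368) (16895/60368) :=
  (((jy.mul jy).mul (HasJet.const P E1 E2 E2.1)).add ((jx.mul jx).mul (HasJet.const P E1 E2 E2.2))).num
    (by norm_num [E2]) (by norm_num [E2]) (by norm_num [E2]) (by norm_num [E2]) (by norm_num [E2]) (by norm_num [E2])

lemma jg11 : HasJet P E1 E2 (Gf E1 E1) (66586969805625/264686087718976) (21121697082375/66171521929744) (-1479710440125/5401756892224) (13793624109675/66171521929744) (-14032950265575/66171521929744) (2005787775634875/1058744350875904) :=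
  ((jD4.mul (HasJet.const P E1 E2 (E1.1 * E1.1 + E1.2 * E1.2))).add (jl1.mul jl1)).num
    (by norm_num [E1]) (by norm_num [E1]) (by norm_num [E1]) (by norm_num [E1]) (by norm_num [E1]) (by norm_num [E1])

lemma jg12 : HasJet P E1 E2 (Gf E1 E2) 0 (569075625/20043624832) (-13316369625/20043624832) (20115185625/220479873152) (-19206337275/20043624832) (23405583825/40087249664) :=
  ((jD4.mul (HasJet.const P E1 E2 (E1.1 * E2.1 + E1.2 * E2.2))).add (jl1.mul jl2)).num
    (by norm_num [E1, E2]) (by norm_num [E1, E2]) (by norm_num [E1, E2]) (by norm_num [E1, E2]) (by norm_num [E1, E2]) (by norm_num [E1, E2])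

lemma jg22 : HasJet P E1 E2 (Gf E2 E2) (41347327685625/34999813252096) (100152415949625/96249486443264) (-367736668875/178570475776) (-400358650932225/1058744350875904) (-134497475980425/96249486443264) (81662680255725/4374976656512) :=
  ((jD4.mul (HasJet.const P E1 E2 (E2.1 * E2.1 + E2.2 * E2.2))).add (jl2.mul jl2)).num
    (by norm_num [E2]) (by norm_num [E2]) (by norm_num [E2]) (by norm_num [E2]) (by norm_num [E2]) (by norm_num [E2])

lemma jyy : HasJet P E1 E2 (fun q => q.2 * q.2 * (q.2 - 1)) (-64800/456533) (-20520/456533) (-53010/456533) (66816/456533) (172608/456533) (445904/456533) := by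
  have h := ((jy.mul jy).mul (jy.add (HasJet.const P E1 E2 (-1))))
  have h2 := h.num (w := (-64800/456533)) (c1 := (-20520/456533)) (c2 := (-53010/456533)) (c11 := (66816/456533)) (c12 := (172608/456533)) (c22 := (445904/456533))
    (by norm_num) (by norm_num) (by norm_num) (by norm_num) (by norm_num) (by norm_num)
  exact h2.congr (Eventually.of_forall fun q => by ring)

lemma jxx : HasJet P E1 E2 (fun q => q.1 * q.1 * (q.1 - 1)) (-22275/175616) (19665/175616) (-56925/175616) (28519/87808) (-82555/87808) (238975/87808) := by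
  have h := ((jx.mul jx).mul (jx.add (HasJet.const P E1 E2 (-1))))
  have h2 := h.num (w := (-22275/175616)) (c1 := (19665/175616)) (c2 := (-56925/175616)) (c11 := (28519/87808)) (c12 := (-82555/87808)) (c22 := (238975/87808))
    (by norm_num) (by norm_num) (by norm_num) (by norm_num) (by norm_num) (by norm_num)
  exact h2.congr (Eventually.of_forall fun q => by ring)

lemma jh11 : HasJet P E1 E2 (Hf E1 E1) (12646125/178960936) (4501575/44740234) (-21050325/715843744) (8333685/89480468) (-100035/1826132) (1893127/44740234) :=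
  (((jyy.mul (HasJet.const P E1 E2 (E1.1 * E1.1))).add
    ((jx.mul jy).mul (HasJet.const P E1 E2 (E1.1 * E1.2 + E1.2 * E1.1)))).add
    (jxx.mul (HasJet.const P E1 E2 (E1.2 * E1.2)))).num
    (by norm_num [E1]) (by norm_num [E1]) (by norm_num [E1]) (by norm_num [E1]) (by norm_num [E1]) (by norm_num [E1])

lemma jh12 : HasJet P E1 E2 (Hf E1 E2) 0 (920925/32538352) (-2932605/65076704) (838755/32538352) (-1467721/4067294) (272025/664048) :=
  (((jyy.mul (HasJet.const P E1 E2 (E1.1 * E2.1))).add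
    ((jx.mul jy).mul (HasJet.const P E1 E2 (E1.1 * E2.2 + E1.2 * E2.1)))).add
    (jxx.mul (HasJet.const P E1 E2 (E1.2 * E2.2)))).num
    (by norm_num [E1, E2]) (by norm_num [E1, E2]) (by norm_num [E1, E2]) (by norm_num [E1, E2]) (by norm_num [E1, E2]) (by norm_num [E1, E2])

lemma jh22 : HasJet P E1 E2 (Hf E2 E2) (-22763025/23664256) (-177141735/260306816) (-941625/2151296) (2242279/130153408) (-2280825/11832128) (61624125/11832128) :=
  (((jyy.mul (HasJet.const P E1 E2 (E2.1 * E2.1))).add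
    ((jx.mul jy).mul (HasJet.const P E1 E2 (E2.1 * E2.2 + E2.2 * E2.1)))).add
    (jxx.mul (HasJet.const P E1 E2 (E2.2 * E2.2)))).num
    (by norm_num [E2]) (by norm_num [E2]) (by norm_num [E2]) (by norm_num [E2]) (by norm_num [E2]) (by norm_num [E2])

/-! ### The contradiction -/

/-- the three relations near `P` for a pair of functions -/
def Rel (u v : ℝ × ℝ → ℝ) : Prop :=
  (∀ᶠ q in 𝓝 P, Gf E2 E2 q * (D E1 u q * D E1 v q) + (-1) * Gf E1 E2 q *
      (D E1 u q * D E2 v q + D E2 u q * D E1 v q) + Gf E1 E1 q * (D E2 u q * D E2 v q) = 0) ∧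
  (∀ᶠ q in 𝓝 P, Hf E2 E2 q * (D E1 u q * D E1 v q) + (-1) * Hf E1 E2 q *
      (D E1 u q * D E2 v q + D E2 u q * D E1 v q) + Hf E1 E1 q * (D E2 u q * D E2 v q) = 0) ∧
  (∀ᶠ q in 𝓝 P, Gf E2 E2 q * (D E1 u q * D E1 u q + (-1) * (D E1 v q * D E1 v q)) +
      (-2) * Gf E1 E2 q * (D E1 u q * D E2 u q + (-1) * (D E1 v q * D E2 v q))
      + Gf E1 E1 q * (D E2 u q * D E2 u q + (-1) * (D E2 v q * D E2 v q)) = 0)

lemma caseA {u v : ℝ × ℝ → ℝ} (hu : ContDiffAt ℝ 3 u P) (hv : ContDiffAt ℝ 3 v P)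
    (hr : Rel u v) (hb : D E2 u P = 0) (hc : D E1 v P = 0) (ha : D E1 u P ≠ 0)
    (hd : D E2 v P ≠ 0) : False := by
  obtain ⟨r1, r2, r3⟩ := hr
  obtain ⟨a0, a1, a2, a11, a12, a22, b0, b2, b22, ja, jb⟩ := jets_of_C3 hu E1 E2
  obtain ⟨c0, c1, c2, c11, c12, c22, d0, d2, d22, jc, jd⟩ := jets_of_C3 hv E1 E2
  have hb0 : b0 = 0 := by rw [← jb.2.1, hb]
  have hc0 : c0 = 0 := by rw [← jc.2.1, hc]
  have ha0 : a0 ≠ 0 := by rw [← ja.2.1]; exact ha
  have hd0 : d0 ≠ 0 := by rw [← jd.2.1]; exact hd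
  subst hb0 hc0
  obtain ⟨p0, p1, p2, p11, -, p22⟩ := (((jg22.mul (ja.mul jc)).add (((HasJet.const P E1 E2 (-1)).mul jg12).mul
    ((ja.mul jd).add (jb.mul jc)))).add (jg11.mul (jb.mul jd))).eq_zero r1
  obtain ⟨q0, q1, q2, q11, -, q22⟩ := (((jh22.mul (ja.mul jc)).add (((HasJet.const P E1 E2 (-1)).mul jh12).mul
    ((ja.mul jd).add (jb.mul jc)))).add (jh11.mul (jb.mul jd))).eq_zero r2
  obtain ⟨s0, s1, s2, -, s12, -⟩ := (((jg22.mul ((ja.mul ja).add ((HasJet.const P E1 E2 (-1)).mul (jc.mul jc)))).add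
    (((HasJet.const P E1 E2 (-2)).mul jg12).mul ((ja.mul jb).add ((HasJet.const P E1 E2 (-1)).mul (jc.mul jd))))).add
    (jg11.mul ((jb.mul jb).add ((HasJet.const P E1 E2 (-1)).mul (jd.mul jd))))).eq_zero r3
  have e1 : c1 = (-50958464/3243242079) * d0 := by
    apply mul_left_cancel₀ ha0
    linear_combination (exp := 1) (2499986660864/11514562381125) * p1 + (-21975642304/28431018225) * q1
  have e2 : a2 = (36686485/196560126) * a0 := by
    apply mul_left_cancel₀ hd0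
    linear_combination (exp := 1) (18906149122784/6396979100625) * p1 + (3822094276/1053000675) * q1
  have e3 : c2 = (-5973942/54600035) * d0 := by
    apply mul_left_cancel₀ ha0
    linear_combination (exp := 1) (2499986660864/11514562381125) * p2 + (-21975642304/28431018225) * q2
  have e4 : b2 = (-929117761/436800280) * a0 := by
    apply mul_left_cancel₀ hd0
    linear_combination (exp := 1) (18906149122784/6396979100625) * p2 + (3822094276/1053000675) * q2
  subst e1 e2 e3 e4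
  have e5 : a1 = (5944792365382/70275650448465) * a0 := by
    apply mul_left_cancel₀ ha0
    linear_combination (exp := 1) (17499906626048/41347327685625) * s1 + (-16770125413069116472029184/37736498018352231711478125) * s0
  have e6 : d2 = (-61934709826/440786082555) * d0 := by
    apply mul_left_cancel₀ hd0
    linear_combination (exp := 1) (-132343043859488/66586969805625) * s2 + (-11416222675106708386467232/4192944224261359079053125) * s0
  subst e5 e6
  have e7 : a12 = (-93772985072141810537/1255762791534748809690) * a0 := by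
    apply mul_left_cancel₀ hd0
    linear_combination (exp := 1) (18906149122784/6396979100625) * p11 + (3822094276/1053000675) * q11
  have e8 : c22 = (-1256107133284336799/3702605466925521450) * d0 := by
    apply mul_left_cancel₀ ha0
    linear_combination (exp := 1) (2499986660864/11514562381125) * p22 + (-21975642304/28431018225) * q22
  subst e7 e8
  have e9 : (833591508003472505625/1337693719990533796352) * (a0 * a0) = 0 := by
    linear_combination (exp := 1) s12 + (4649771204284722328178749/2816048060016674205729825) * s0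
  have e10 : a0 * a0 = 0 := by
    rcases mul_eq_zero.mp e9 with h | h
    · norm_num at h
    · exact h
  exact ha0 (mul_self_eq_zero.mp e10)

lemma Rel.symm {u v : ℝ × ℝ → ℝ} (h : Rel u v) : Rel v u := by
  obtain ⟨r1, r2, r3⟩ := h
  refine ⟨?_, ?_, ?_⟩
  · filter_upwards [r1] with q hq
    linear_combination hq
  · filter_upwards [r2] with q hq
    linear_combination hq
  · filter_upwards [r3] with q hq
    linear_combination (-1) * hq

lemma not_isothermal : ¬ IsothermalNear hamacher P := by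
  rintro ⟨O, u, v, lam, hO, hP, hu, hv, hlam, h1, h2⟩
  have hN : O ∩ Sq ∈ 𝓝 P := inter_mem (hO.mem_nhds hP) (Sq_open.mem_nhds P_mem)
  have hrel := fun q (hq : q ∈ O ∩ Sq) => relations h1 h2 hq.1 hq.2 E1 E2
  have hR : Rel u v := by
    refine ⟨?_, ?_, ?_⟩
    · filter_upwards [hN] with q hq
      exact (hrel q hq).1
    · filter_upwards [hN] with q hq
      exact (hrel q hq).2.1
    · filter_upwards [hN] with q hq
      exact (hrel q hq).2.2.1
  have huP : ContDiffAt ℝ 3 u P := hu.contDiffAt (hO.mem_nhds hP)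
  have hvP : ContDiffAt ℝ 3 v P := hv.contDiffAt (hO.mem_nhds hP)
  obtain ⟨t1, t2, -, t4⟩ := hrel P ⟨hP, P_mem⟩
  have G11 := jg11.2.1
  have G12 := jg12.2.1
  have G22 := jg22.2.1
  have H11 := jh11.2.1
  have H12 := jh12.2.1
  have H22 := jh22.2.1
  rw [G11, G12, G22] at t1 t4
  rw [H11, H12, H22] at t2
  set a := D E1 u P
  set b := D E2 u P
  set c := D E1 v P
  set d := D E2 v P
  have hac : a * c = 0 := by linear_combination (exp := 1) (2499986660864/11514562381125) * t1 + (-21975642304/28431018225) * t2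
  have hbd : b * d = 0 := by linear_combination (exp := 1) (18906149122784/6396979100625) * t1 + (3822094276/1053000675) * t2
  have hdet : a * d - b * c ≠ 0 := by
    intro h
    rw [h] at t4
    norm_num at t4
  by_cases ha : a = 0
  · have hb : b ≠ 0 := by intro h; exact hdet (by rw [ha, h]; ring)
    have hd : d = 0 := by
      rcases mul_eq_zero.mp hbd with h | h
      · exact absurd h hb
      · exact h
    have hc : c ≠ 0 := by rintro h; exact hdet (by rw [ha, h]; ring)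
    exact caseA hvP huP hR.symm hd ha hc hb
  · have hc : c = 0 := by
      rcases mul_eq_zero.mp hac with h | h
      · exact absurd h ha
      · exact h
    have hd : d ≠ 0 := by rintro h; exact hdet (by rw [hc, h]; ring)
    have hb : b = 0 := by
      rcases mul_eq_zero.mp hbd with h | h
      · exact h
      · exact absurd h hd
    exact caseA huP hvP hR hb hc ha hd

lemma not_umbilic : ¬ IsUmbilic hamacher P := by
  rintro ⟨κ, hκ⟩
  obtain ⟨c, hc, hcc⟩ := second_ham P_mem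
  have h1 := hκ E1 E1
  have h2 := hκ E2 E2
  rw [hcc, first_ham P_mem, jg11.2.1, jh11.2.1] at h1
  rw [hcc, first_ham P_mem, jg22.2.1, jh22.2.1] at h2
  have hD : 0 < Dn P ^ 4 := pow_pos (Dn_pos P_mem) 4
  have hκ1 : 0 < κ := by
    by_contra hk
    push Not at hk
    have : κ * (66586969805625/264686087718976 / Dn P ^ 4) ≤ 0 := mul_nonpos_of_nonpos_of_nonneg hk (by positivity)
    rw [← h1] at this
    nlinarith
  have : 0 < κ * (41347327685625/34999813252096 / Dn P ^ 4) := by positivity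
  rw [← h2] at this
  nlinarith

/-- **The Hamacher product is a continuous t-norm, smooth on the open unit square, whose graph has
a non-umbilic point near which it is not isothermal.** -/
theorem result :
    IsContinuousTNorm hamacher ∧
    ContDiffOn ℝ ∞ hamacher (Ioo (0:ℝ) 1 ×ˢ Ioo (0:ℝ) 1) ∧
    ∃ p ∈ Ioo (0:ℝ) 1 ×ˢ Ioo (0:ℝ) 1, ¬ IsUmbilic hamacher p ∧ ¬ IsothermalNear hamacher p :=
  ⟨ham_isContinuousTNorm, ham_contDiffOn, P, P_mem, not_umbilic, not_isothermal⟩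

end Pool.Agent.Results.MP_9703cd_gt.HamacherNotIsothermal
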